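import Mathlib

namespace Pool.Agent.Results.MP_ee20a5_al.RatioThree

/-- `x` is the only rational tuple satisfying all equations `v i = 1` and `v i + v j = v k`
that `x` satisfies. -/
def Rigid {n : ℕ} (x : Fin n → ℚ) : Prop :=
  ∀ y : Fin n → ℚ, (∀ i, x i = 1 → y i = 1) →
    (∀ i j k, x i + x j = x k → y i + y j = y k) → y = x

theorem result : ¬ ∀ n : ℕ, 2 ≤ n → ∀ x : Fin n → ℚ, Rigid x →
    (∀ i j, i ≤ j → |x i| ≤ |x j|) →
    ∀ i j : Fin n, j.val = i.val + 1 → 1 ≤ |x i| → |x j| ≤ 2 * |x i| := by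
  intro h
  have := h 5 (by norm_num) ![1, 3, 4, 5, 6] ?_ ?_ 0 1 rfl (by norm_num)
  · norm_num at this
  · intro y h1 h2
    have a0 := h1 0 rfl
    have a1 := h2 0 1 2 (by decide +kernel)
    have a2 := h2 0 2 3 (by decide +kernel)
    have a3 := h2 0 3 4 (by decide +kernel)
    have a4 := h2 1 1 4 (by decide +kernel)
    funext i
    fin_cases i <;> simp <;> linarith
  · decide +kernel

end Pool.Agent.Results.MP_ee20a5_al.RatioThree
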